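import Pool.Agent.Helper11.LE.Goals1
import Pool.Agent.Helper81.RS.SEX
import Pool.Agent.Helper42.RD.VAL
import Pool.Agent.Helper59.RP.BIN
import Pool.Agent.Helper90.RP.SUB
import Pool.Agent.Helper90.RP.DUAL

/-!
# Project LE, packet LE-PSI: duality by counting
-/

set_option autoImplicit false

namespace Pool.Agent.Helper58.LE

open NumberField Polynomial Module IsDedekindDomain TensorProduct
open _root_.Pool.Agent.Helper51.SigLeo _root_.Pool.Agent.Helper51.RP
open _root_.Pool.Agent.Helper42.RD _root_.Pool.Agent.Helper11.LE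
open _root_.Pool.Agent.Helper90.RP.Dual (finite_ordv finite_lt_one)

/-- Embeddings send integers to elements of norm at most one. -/
theorem norm_int_le {k : Type} [NormedField k]
    [IsUltrametricDist k] {K : Type} [Field K] (τ : K →+* k) (b : 𝓞 K) :
    ‖τ (b : K)‖ ≤ 1 := by
  have h1 : IsIntegral ℤ (τ (b : K)) := (b.2 : IsIntegral ℤ (b : K)).map τ.toIntAlgHom
  have h2 : IsIntegral (NormedField.valuation (K := k)).integer (τ (b : K)) := h1.tower_top
  have h3 := (Valuation.integer.integers (NormedField.valuation (K := k))).isIntegral_iff_v_le_one.1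
    h2
  rw [NormedField.valuation_apply] at h3
  exact_mod_cast h3

theorem above_self {k : Type} [NormedField k] {K : Type} [Field K] (T : Set (K →+* k)) :
    (above T : Set (K →+* k)) = T := by
  ext τ
  show τ.comp (algebraMap K K) ∈ T ↔ τ ∈ T
  rw [Algebra.algebraMap_self, RingHom.comp_id]

theorem ordv_pow {K : Type} [Field K] [NumberField K] (w : HeightOneSpectrum (𝓞 K)) (z : Kˣ)
    (n : ℕ) : ordv w ((z : K) ^ n) = n * ordv w (z : K) := by
  induction n with
  | zero => simp [ordv]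
  | succ n ih => rw [pow_succ, _root_.Pool.Agent.Helper90.RP.Dual.ordv_mul w (pow_ne_zero n z.ne_zero) z.ne_zero, ih]; push_cast; ring

theorem l_psi (h1 : L_SUN) (h2 : L_LOB) (h3 : L_LIN) (h4 : L_CHR) : L_PSI := by
  classical
  intro p hp k _ _ _ _ hk L K _ _ T R al hdat r n hn hF
  have hsex : _root_.Pool.Agent.Helper51.RP.S_SEX := _root_.Pool.Agent.Helper81.RS.s_sex
  have hp0 : p ≠ 0 := hp.out.ne_zero
  have hpO : (p : 𝓞 K) ≠ 0 := by exact_mod_cast hp0
  -- the finite set of the primes in `R` or above `p`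
  have hpfin : {w : HeightOneSpectrum (𝓞 K) | w.valuation K (p : K) < 1}.Finite := by
    have h := finite_lt_one (M := K) (p : 𝓞 K) hpO
    refine h.subset fun w hw => ?_
    have e : (((p : 𝓞 K) : 𝓞 K) : K) = (p : K) := by push_cast; rfl
    show w.valuation K (((p : 𝓞 K) : 𝓞 K) : K) < 1
    rw [e]
    exact hw
  obtain ⟨S, hSf, hZS, hSst, hSn⟩ := hsex K K
    (R ∪ {w : HeightOneSpectrum (𝓞 K) | w.valuation K (p : K) < 1}) (hdat.fin.union hpfin)
  have hRS : R ⊆ S := fun w hw => hZS (Or.inl hw)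
  have habp : ∀ w : HeightOneSpectrum (𝓞 K), w.valuation K (p : K) < 1 → w ∈ S :=
    fun w hw => hZS (Or.inr hw)
  obtain ⟨𝔪₀, v, hv, hvl⟩ := _root_.Pool.Agent.Helper42.RD.d_val p k K K (1 : K ≃ₐ[K] K) T R al
    hdat S hSf hSst habp hRS
  obtain ⟨G, hG, hGpw, -⟩ := _root_.Pool.Agent.Helper90.RP.s_sub p k L K K (1 : K ≃ₐ[K] K) T S 𝔪₀ v hv
  rw [above_self] at hG
  have hsel : ∀ x : Kˣ, (∀ w ∈ S, LocD p R al w (x : K)) → LocSig L T x → x ∈ G := by
    intro x hx hxs
    rw [hG]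
    exact ⟨fun w hw => (hvl x w hw).2 (hx w hw), hxs⟩
  -- the linear algebra
  obtain ⟨F₀, hF₀c, hF₀S, hF₀I⟩ := hF
  have hz : ∀ x : Kˣ, ∃ z : Kˣ, (∀ w ∉ S, LocD p R al w (x : K)) →
      x * (z ^ p)⁻¹ ∈ S.unit K := by
    intro x
    obtain ⟨z, hz⟩ := hSn (Finsupp.onFinset ((finite_ordv (x : K) x.ne_zero).toFinset)
      (fun w ↦ ordv w (x : K) / p) (by
        intro w hw
        rw [Set.Finite.mem_toFinset]
        intro h
        apply hw
        show ordv w (x : K) / p = 0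
        rw [h]
        simp))
    refine ⟨z, fun hx w hw => ?_⟩
    have hwR : w ∉ R := fun h => hw (hRS h)
    have h7 : (p : ℤ) ∣ ordv w (x : K) := (hx w hw).1 hwR
    have h8 : ordv w (z : K) = ordv w (x : K) / p := hz w hw
    have h9 : ordv w ((x : K) * ((z : K) ^ p)⁻¹) = 0 := by
      rw [_root_.Pool.Agent.Helper90.RP.Dual.ordv_mul w x.ne_zero
        (inv_ne_zero (pow_ne_zero p z.ne_zero)), _root_.Pool.Agent.Helper90.RP.Dual.ordv_inv,
        _root_.Pool.Agent.Helper58.LE.ordv_pow, h8,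
        Int.mul_ediv_cancel' h7]
      ring
    have h10 : ((x * (z ^ p)⁻¹ : Kˣ) : K) = (x : K) * ((z : K) ^ p)⁻¹ := by simp
    show w.valuation K ((x * (z ^ p)⁻¹ : Kˣ) : K) = 1
    rw [h10]
    exact (_root_.Pool.Agent.Helper90.RP.Dual.ordv_eq_zero_iff w (mul_ne_zero x.ne_zero
      (inv_ne_zero (pow_ne_zero p z.ne_zero)))).1 h9
  choose z hz using hz
  set f : Kˣ → Kˣ := fun x => x * (z x ^ p)⁻¹ with hf
  have hfne : ∀ x ∈ F₀, ∀ y ∈ F₀, x ≠ y → ¬ ∃ u, f x / f y = u ^ p := by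
    rintro x hx y hy hxy ⟨u, hu⟩
    apply hF₀I x hx y hy hxy
    refine ⟨u * (z x / z y), ?_⟩
    rw [mul_pow, ← hu, hf]
    simp only
    rw [div_pow, div_mul_div_comm, inv_mul_cancel_right, inv_mul_cancel_right]
  obtain ⟨lam, hlU, hlG, hlind⟩ := h3 p Kˣ (S.unit K) G (S.ncard + urk p K)
    (S.ncard + T.ncard) r n (fun x => hGpw _ ⟨x, rfl⟩)
    (fun F hF1 hF2 => h1 p K S hSf F ⟨hF1, hF2⟩)
    (by
      obtain ⟨F, hFc, hF1⟩ := h2 p k hk L K T S 𝔪₀ v hv
      refine ⟨F, hFc, fun x hx y hy hxy h => hF1 x hx y hy hxy ?_⟩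
      exact (hG _).1 h)
    (by
      refine ⟨F₀.image f, ?_, ?_, ?_⟩
      · rw [Finset.card_image_of_injOn, hF₀c]
        intro x hx y hy hxy
        by_contra hne
        exact hfne x hx y hy hne ⟨1, by rw [one_pow]; exact div_eq_one.2 hxy⟩
      · intro y hy
        obtain ⟨x, hx, rfl⟩ := Finset.mem_image.1 hy
        have hxS := hF₀S x hx
        refine ⟨hz x (fun w _ => hxS.loc w), ?_⟩
        exact G.mul_mem (hsel x (fun w _ => hxS.loc w) hxS.sig) (G.inv_mem (hGpw _ ⟨z x, rfl⟩))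
      · intro y hy y' hy' hne
        obtain ⟨x, hx, rfl⟩ := Finset.mem_image.1 hy
        obtain ⟨x', hx', rfl⟩ := Finset.mem_image.1 hy'
        exact hfne x hx x' hx' (fun h => hne (by rw [h])))
    (by omega)
  -- the characters
  have hm1 : Ideal.span {(p : 𝓞 K) ^ 3} * 𝔪₀ ≠ ⊥ := by
    apply mul_ne_zero _ hv.ne
    rw [Ne, Ideal.zero_eq_bot, Ideal.span_singleton_eq_bot]
    exact pow_ne_zero 3 hpO
  have hm2 : ∀ w : HeightOneSpectrum (𝓞 K), w.asIdeal ⊔ Ideal.span {(p : 𝓞 K) ^ 3} * 𝔪₀ ≠ ⊤ →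
      w ∈ S := by
    intro w hw
    have hmax := w.isMaximal
    have h5 : Ideal.span {(p : 𝓞 K) ^ 3} * 𝔪₀ ≤ w.asIdeal := by
      have h6 := hmax.eq_of_le hw le_sup_left
      rw [h6]
      exact le_sup_right
    rcases (w.isPrime.mul_le.1 h5) with h6 | h6
    · apply habp
      have h7 : (p : 𝓞 K) ^ 3 ∈ w.asIdeal := h6 (Ideal.mem_span_singleton_self _)
      have h8 : (p : 𝓞 K) ∈ w.asIdeal := w.isPrime.mem_of_pow_mem 3 h7
      have h9 : w.valuation K (((p : 𝓞 K) : 𝓞 K) : K) < 1 :=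
        (w.valuation_lt_one_iff_mem (K := K) (p : 𝓞 K)).2 h8
      have e : (((p : 𝓞 K) : 𝓞 K) : K) = (p : K) := by push_cast; rfl
      rwa [e] at h9
    · apply hv.supp
      intro h7
      apply hmax.ne_top
      rw [← h7]
      exact (sup_eq_left.2 h6).symm
  obtain ⟨𝔪, ψ, hcop, hFam, hInd, hlast⟩ := h4 p K S hSf hSn _ hm1 hm2 n lam hlU
    (by
      intro i α x hxα hα
      apply hlG i x
      rw [hG]
      constructor
      · exact hv.ray α x hxα (Ideal.mul_le_right hα)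
      · apply _root_.Pool.Agent.Helper59.RP.s_bin p k L K T x
        intro τ _
        obtain ⟨β, hβ⟩ := Ideal.mem_span_singleton.1 (Ideal.mul_le_left hα)
        have h5 : (x : K) - 1 = (p : K) ^ 3 * (β : K) := by
          rw [hxα]
          have h6 : ((α - 1 : 𝓞 K) : K) = (((p : 𝓞 K) ^ 3 * β : 𝓞 K) : K) := by rw [hβ]
          rw [show ((α - 1 : 𝓞 K) : K) = (α : K) - 1 by push_cast; rfl] at h6
          rw [h6]
          push_cast
          rfl
        have h7 : τ (x : K) - 1 = (p : k) ^ 3 * τ (β : K) := by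
          rw [← map_one τ, ← map_sub, h5, map_mul, map_pow, map_natCast]
        rw [h7, norm_mul, norm_pow]
        have h8 : ‖(p : k)‖ = 1 / p := by
          have h9 : (p : k) = algebraMap ℚ_[p] k (p : ℚ_[p]) := (map_natCast _ _).symm
          rw [h9, norm_algebraMap', Padic.norm_p, one_div]
        rw [h8]
        calc (1 / (p : ℝ)) ^ 3 * ‖τ (β : K)‖ ≤ (1 / (p : ℝ)) ^ 3 * 1 :=
              mul_le_mul_of_nonneg_left (norm_int_le τ β) (by positivity)
          _ = (1 / (p : ℝ)) ^ 3 := mul_one _)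
    hlind
  refine ⟨S, 𝔪, ψ, hSf, hRS, habp, hcop, hFam, hInd, ?_⟩
  intro x Z hZ hloc hsig i
  rw [← hlast x Z hZ (fun w hw hwZ => (hloc w hwZ).1 (fun h => hw (hRS h))) i]
  exact hlG i x (hsel x (fun w hw => hloc w (fun h => hZ w h hw)) hsig)

end Pool.Agent.Helper58.LE
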